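import Pool.Agent.H82R2.ZT.T01ChainCount
import Pool.Agent.H82R2.ZT.T02ProdChain
import Pool.Agent.H82R2.ZT.T03ClassCount
import Pool.Agent.H82R2.ZT.T04Alone
import Pool.Agent.H82R2.ZT.T05FamAdmissible
import Pool.Agent.H82R2.ZT.T06LevelCount
import Pool.Agent.H82R2.ZT.T07ColourCount
import Pool.Agent.H82R2.ZT.T08
import Pool.Agent.H82R2.ZT.T09
import Pool.Agent.H82R2.ZT.T10PrimeExists
import Pool.Agent.H82R2.ZT.T11ParamBound
import Pool.Agent.H82R2.ZT.T12FinalBound

/-!
# `m(n,k)` equals `C(n,k) / k` up to the factor `exp (O (sqrt (log k)))`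

`C(n,k) / (432 k exp(4 sqrt(log k))) ≤ m(n,k)` for all `n` and all `k ≥ 2`.  The upper bound
`k^2 m(n,k) ≤ n C(n,k-1)` (file `AllK`) shows that the exponent `-1` of `k` is right.

Construction. Colour the points at random by `ZMod p` and give every point `s` random vectors in
a field `K` of characteristic two.  The `i`-th form of a `k`-set is a fixed bit of the product, over
all colour classes, of `a_i x + a_i y`, where `x, y` are the `i`-th and `(i+1)`-st smallest points
of the class.  Take the `k`-sets whose classes have at most `s + 1` points, whose `s` forms are all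
equal to one, and which have a point `u` alone in its class such that the colours of the other
points have prescribed sum and prescribed sum of squares.  The forms cut every colour class down
to exactly `0` or `2` points whose removal is a member.
-/

open Finset

namespace Pool.Agent.Results.MP_07f90a_co.NearLinear

open Pool.Agent.MP07f90a Pool.Agent.H82R2.ZT

/-- For all `n` and all `k ≥ 2`: `C(n,k) ≤ 108 * 4^s * k^(1 + 2/(s+1)) * m(n,k)` for every `s ≥ 1`,
and `C(n,k) ≤ 432 k exp(4 sqrt(log k)) m(n,k)`. -/
theorem result : ∀ n k : ℕ, 2 ≤ k →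
    (∀ s : ℕ, 1 ≤ s →
      (n.choose k : ℝ) ≤ 108 * 4 ^ s * (k : ℝ) ^ (1 + 2 / ((s : ℝ) + 1)) * m n k) ∧
    (n.choose k : ℝ) ≤ 432 * k * Real.exp (4 * √(Real.log k)) * m n k := by
  have h3 : ClassCount := classCount_proof T01ChainCount_proof t02ProdChain_proof
  have h5 : FamAdmissible := famAdmissible_proof h3 T04Alone_proof
  have h8 : FamBound := t08_proof h5 T06LevelCount_proof T07ColourCount_proof
  have h11 : ParamBound := paramBound_proof h8 t09_proof T10PrimeExists_proof
  exact fun n k hk => ⟨fun s hs => h11 n k s hk hs, finalBound_proof h11 n k hk⟩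

end Pool.Agent.Results.MP_07f90a_co.NearLinear
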